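import Mathlib

/-!
# A second derivative test for oscillatory integrals
-/

set_option autoImplicit false

namespace Pool.Agent.U555.CG

open MeasureTheory intervalIntegral Complex Set

/-- second derivative test -/
theorem vdc {a b l : ℝ} (hab : a ≤ b) (hl : 0 < l) {φ u v : ℝ → ℝ}
    (hφ : ∀ x ∈ Icc a b, HasDerivAt φ (u x) x) (hu : ∀ x ∈ Icc a b, HasDerivAt u (v x) x)
    (hv : ContinuousOn v (Icc a b)) (hvl : ∀ x ∈ Icc a b, l ≤ v x) :
    ‖∫ x in a..b, cexp (φ x * I)‖ ≤ 8 / √l := by
  have hI : uIcc a b = Icc a b := uIcc_of_le hab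
  have hδ : 0 < √l := Real.sqrt_pos.2 hl
  have hδ2 : √l ^ 2 = l := Real.sq_sqrt hl.le
  have hφc : ContinuousOn φ (Icc a b) := fun x hx => (hφ x hx).continuousAt.continuousWithinAt
  have huc : ContinuousOn u (Icc a b) := fun x hx => (hu x hx).continuousAt.continuousWithinAt
  have hpos : ∀ x, 0 < u x ^ 2 + l := fun x => by positivity
  have hposC : ∀ x, ((u x : ℂ) ^ 2 + l) ≠ 0 := fun x => by
    have := (hpos x).ne'
    exact_mod_cast this
  -- the primitive
  set G : ℝ → ℂ := fun x => cexp (φ x * I) * (((u x / (u x ^ 2 + l) : ℝ) : ℂ) * (-I)) with hG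
  set G' : ℝ → ℂ := fun x => cexp (φ x * I) * (u x * I) *
    (((u x / (u x ^ 2 + l) : ℝ) : ℂ) * (-I)) + cexp (φ x * I) *
    (((v x * (u x ^ 2 + l) - u x * (2 * u x * v x)) / (u x ^ 2 + l) ^ 2 : ℝ) * (-I)) with hG'
  have hGd : ∀ x ∈ Icc a b, HasDerivAt G (G' x) x := by
    intro x hx
    have h1 : HasDerivAt (fun x => cexp (φ x * I)) (cexp (φ x * I) * (u x * I)) x :=
      ((hφ x hx).ofReal_comp.mul_const I).cexp
    have h2 : HasDerivAt (fun x => u x / (u x ^ 2 + l))
        ((v x * (u x ^ 2 + l) - u x * (2 * u x * v x)) / (u x ^ 2 + l) ^ 2) x := by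
      have h3 : HasDerivAt (fun x => u x ^ 2 + l) (2 * u x * v x) x := by
        have := ((hu x hx).pow 2).add_const l
        simpa using this
      exact (hu x hx).div h3 (hpos x).ne'
    exact h1.mul (h2.ofReal_comp.mul_const (-I))
  have hE : ContinuousOn (fun x => cexp (φ x * I)) (Icc a b) := by
    apply ContinuousOn.cexp
    exact (Complex.continuous_ofReal.comp_continuousOn hφc).mul continuousOn_const
  have hG'c : ContinuousOn G' (Icc a b) := by
    have c1 : ContinuousOn (fun x => u x / (u x ^ 2 + l)) (Icc a b) :=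
      huc.div ((huc.pow 2).add continuousOn_const) (fun x _ => (hpos x).ne')
    have c2 : ContinuousOn (fun x => (v x * (u x ^ 2 + l) - u x * (2 * u x * v x)) /
        (u x ^ 2 + l) ^ 2) (Icc a b) :=
      ((hv.mul ((huc.pow 2).add continuousOn_const)).sub
        (huc.mul ((continuousOn_const.mul huc).mul hv))).div
        (((huc.pow 2).add continuousOn_const).pow 2) (fun x _ => pow_ne_zero 2 (hpos x).ne')
    exact ((hE.mul ((Complex.continuous_ofReal.comp_continuousOn huc).mul
      continuousOn_const)).mul ((Complex.continuous_ofReal.comp_continuousOn c1).mul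
      continuousOn_const)).add (hE.mul ((Complex.continuous_ofReal.comp_continuousOn c2).mul
      continuousOn_const))
  have hFTC : ∫ x in a..b, G' x = G b - G a := by
    apply integral_eq_sub_of_hasDerivAt
    · intro x hx; rw [hI] at hx; exact hGd x hx
    · apply ContinuousOn.intervalIntegrable; rw [hI]; exact hG'c
  have hsplit : ∫ x in a..b, cexp (φ x * I) = (∫ x in a..b, G' x) +
      ∫ x in a..b, (cexp (φ x * I) - G' x) := by
    rw [← intervalIntegral.integral_add]
    · congr 1; ext x; ring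
    · apply ContinuousOn.intervalIntegrable; rw [hI]; exact hG'c
    · apply ContinuousOn.intervalIntegrable; rw [hI]; exact hE.sub hG'c
  have hvc : ContinuousOn (fun x => 2 * (v x / (u x ^ 2 + l))) (Icc a b) :=
    continuousOn_const.mul (hv.div ((huc.pow 2).add continuousOn_const) (fun x _ => (hpos x).ne'))
  have hbound : ∀ x ∈ Icc a b, ‖cexp (φ x * I) - G' x‖ ≤ 2 * (v x / (u x ^ 2 + l)) := by
    intro x hx
    have hv0 : 0 < v x := lt_of_lt_of_le hl (hvl x hx)
    have e1 : cexp (φ x * I) - G' x = cexp (φ x * I) * (((l / (u x ^ 2 + l) : ℝ) : ℂ) +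
        I * ((v x * (l - u x ^ 2) / (u x ^ 2 + l) ^ 2 : ℝ) : ℂ)) := by
      simp only [hG']
      push_cast
      have := hposC x
      field_simp
      ring_nf
      simp only [Complex.I_sq]
      ring
    rw [e1, norm_mul, Complex.norm_exp_ofReal_mul_I, one_mul]
    refine (norm_add_le _ _).trans ?_
    rw [norm_mul, Complex.norm_I, one_mul, Complex.norm_real, Complex.norm_real,
      Real.norm_eq_abs, Real.norm_eq_abs, abs_of_nonneg (by positivity), abs_div, abs_mul,
      abs_of_pos hv0, abs_of_pos (pow_pos (hpos x) 2)]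
    have h1 : l / (u x ^ 2 + l) ≤ v x / (u x ^ 2 + l) := by
      gcongr; exact hvl x hx
    have h2 : |l - u x ^ 2| ≤ u x ^ 2 + l := by
      rw [abs_le]; constructor <;> nlinarith [sq_nonneg (u x)]
    have h3 : v x * |l - u x ^ 2| / (u x ^ 2 + l) ^ 2 ≤ v x / (u x ^ 2 + l) := by
      rw [div_le_div_iff₀ (pow_pos (hpos x) 2) (hpos x)]
      have := mul_le_mul_of_nonneg_left h2 hv0.le
      calc v x * |l - u x ^ 2| * (u x ^ 2 + l) ≤ v x * (u x ^ 2 + l) * (u x ^ 2 + l) := by
            gcongr
        _ = v x * (u x ^ 2 + l) ^ 2 := by ring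
    linarith
  have hint : ∫ x in a..b, 2 * (v x / (u x ^ 2 + l)) =
      2 / √l * Real.arctan (u b / √l) - 2 / √l * Real.arctan (u a / √l) := by
    apply integral_eq_sub_of_hasDerivAt (f := fun x => 2 / √l * Real.arctan (u x / √l))
    · intro x hx
      rw [hI] at hx
      have h1 : HasDerivAt (fun x => u x / √l) (v x / √l) x := (hu x hx).div_const _
      have h2 := (h1.arctan).const_mul (2 / √l)
      refine h2.congr_deriv ?_
      have := (hpos x).ne'
      have e : 1 + (u x / √l) ^ 2 = (u x ^ 2 + l) / l := by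
        rw [div_pow, hδ2]; field_simp; ring
      rw [e]
      field_simp
      rw [hδ2]
    · apply ContinuousOn.intervalIntegrable; rw [hI]; exact hvc
  have hGn : ∀ x, ‖G x‖ ≤ 1 / (2 * √l) := by
    intro x
    simp only [hG]
    rw [norm_mul, Complex.norm_exp_ofReal_mul_I, one_mul, norm_mul, norm_neg, Complex.norm_I,
      mul_one, Complex.norm_real, Real.norm_eq_abs, abs_div, abs_of_pos (hpos x),
      div_le_div_iff₀ (hpos x) (by positivity)]
    have : 0 ≤ (|u x| - √l) ^ 2 := sq_nonneg _
    nlinarith [sq_abs (u x)]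
  rw [hsplit, hFTC]
  have hfin : ‖∫ x in a..b, (cexp (φ x * I) - G' x)‖ ≤ ∫ x in a..b, 2 * (v x / (u x ^ 2 + l)) := by
    apply intervalIntegral.norm_integral_le_of_norm_le hab
    · refine Filter.Eventually.of_forall fun x hx => hbound x ⟨hx.1.le, hx.2⟩
    · apply ContinuousOn.intervalIntegrable; rw [hI]; exact hvc
  rw [hint] at hfin
  have h1 := Real.arctan_lt_pi_div_two (u b / √l)
  have h2 := Real.neg_pi_div_two_lt_arctan (u a / √l)
  have hpi := Real.pi_lt_d2
  have h3 : 2 / √l * Real.arctan (u b / √l) - 2 / √l * Real.arctan (u a / √l) ≤ 2 / √l * 3.15 := by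
    rw [← mul_sub]
    gcongr
    linarith
  calc ‖G b - G a + ∫ x in a..b, (cexp (φ x * I) - G' x)‖ ≤ ‖G b‖ + ‖G a‖ +
        ‖∫ x in a..b, (cexp (φ x * I) - G' x)‖ := by
        refine (norm_add_le _ _).trans ?_
        gcongr
        exact norm_sub_le _ _
    _ ≤ 1 / (2 * √l) + 1 / (2 * √l) + 2 / √l * 3.15 := by
        have := hGn a; have := hGn b; linarith
    _ = 7.3 / √l := by field_simp; norm_num
    _ ≤ 8 / √l := by gcongr; norm_num

end Pool.Agent.U555.CG
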