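import Pool.Agent.U555.CG.Meas

/-!
# The multiplication semigroup
-/

set_option autoImplicit false

namespace Pool.Agent.U555.CG

open MeasureTheory Complex Set Filter Topology
open scoped ComplexConjugate ENNReal

noncomputable section

/-! ### Density of trigonometric polynomials -/

lemma ee_apply (s a : ℝ) (x : X) : ee s a x = cexp (ph s a x * I) := rfl

lemma ee_mul (s a s' a' : ℝ) : ee s a * ee s' a' = ee (s + s') (a + a') := by
  ext x
  rw [ContinuousMap.mul_apply, ee_apply, ee_apply, ee_apply, ← Complex.exp_add]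
  congr 1
  simp only [ph]
  push_cast
  ring

lemma ee_zero : ee 0 0 = 1 := by
  ext x
  simp [ee_apply, ph]

lemma ee_star (s a : ℝ) : star (ee s a) = ee (-s) (-a) := by
  ext x
  rw [ContinuousMap.star_apply, ee_apply, ee_apply]
  change conj (cexp _) = _
  rw [← Complex.exp_conj]
  congr 1
  simp only [ph, map_mul, Complex.conj_ofReal, Complex.conj_I]
  push_cast
  ring

/-- trigonometric polynomials -/
def trig : StarSubalgebra ℂ C(X, ℂ) where
  toSubalgebra := Algebra.adjoin ℂ (range fun n : ℤ => ee 0 n)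
  star_mem' := by
    change Algebra.adjoin ℂ (range fun n : ℤ => ee 0 n) ≤
      star (Algebra.adjoin ℂ (range fun n : ℤ => ee 0 n))
    refine Algebra.adjoin_le ?_
    rintro - ⟨n, rfl⟩
    refine Algebra.subset_adjoin ⟨-n, ?_⟩
    rw [ee_star]
    simp

lemma trig_coe : Subalgebra.toSubmodule trig.toSubalgebra =
    Submodule.span ℂ (range fun n : ℤ => ee 0 n) := by
  apply Algebra.adjoin_eq_span_of_subset
  refine Subset.trans ?_ Submodule.subset_span
  intro x hx
  refine Submonoid.closure_induction (fun _ => id) ⟨0, ?_⟩ ?_ hx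
  · simp [ee_zero]
  · rintro - - - - ⟨m, rfl⟩ ⟨n, rfl⟩
    refine ⟨m + n, ?_⟩
    simp only
    rw [ee_mul]
    simp

lemma trig_sep : trig.SeparatesPoints := by
  intro x y hxy
  refine ⟨_, ⟨ee 0 1, Algebra.subset_adjoin ⟨1, by simp⟩, rfl⟩, ?_⟩
  dsimp only
  intro h
  apply hxy
  have h1 : ∀ z : X, (ee 0 1 z).re = Real.cos z := by
    intro z
    rw [ee_apply, Complex.exp_ofReal_mul_I_re]
    simp [ph]
  have h2 : Real.cos x = Real.cos y := by rw [← h1, ← h1, h]
  have hpi := Real.pi_gt_three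
  have h3 := Real.injOn_cos (x₁ := x) ⟨by linarith [x.2.1], by linarith [x.2.2]⟩
    (x₂ := y) ⟨by linarith [y.2.1], by linarith [y.2.2]⟩ h2
  exact Subtype.ext h3

lemma trig_top : trig.topologicalClosure = ⊤ :=
  ContinuousMap.starSubalgebra_topologicalClosure_eq_top_of_separatesPoints trig trig_sep

lemma span_dense : Dense ((Submodule.span ℂ (range fun n : ℤ => ee 0 n) : Submodule ℂ C(X, ℂ)) :
    Set C(X, ℂ)) := by
  have h := trig_top
  have h1 : (trig.topologicalClosure : Set C(X, ℂ)) = univ := by rw [h]; rfl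
  rw [dense_iff_closure_eq, ← trig_coe]
  rw [← h1]
  rfl

/-- closedness of sets of convergence -/
lemma closed_conv {E : Type*} [SeminormedAddCommGroup E] {ι : Type*} {l : Filter ι} (f : ι → E → ℂ)
    (C : ℝ) (hf : ∀ t x x', ‖f t x - f t x'‖ ≤ C * ‖x - x'‖) :
    IsClosed {x | Tendsto (fun t => f t x) l (𝓝 0)} := by
  rw [← isSeqClosed_iff_isClosed]
  intro u x hu hx
  rw [mem_ofPred_eq, Metric.tendsto_nhds]
  intro ε hε
  have h1 : Tendsto (fun n => (|C| + 1) * ‖u n - x‖) atTop (𝓝 ((|C| + 1) * 0)) :=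
    (tendsto_iff_norm_sub_tendsto_zero.1 hx).const_mul _
  rw [mul_zero] at h1
  obtain ⟨n, hn⟩ := (h1.eventually (gt_mem_nhds (half_pos hε))).exists
  have h2 := hu n
  rw [mem_ofPred_eq, Metric.tendsto_nhds] at h2
  filter_upwards [h2 (ε / 2) (half_pos hε)] with t ht
  rw [dist_zero_right] at ht ⊢
  have h3 := hf t x (u n)
  have h4 : ‖f t x‖ ≤ ‖f t x - f t (u n)‖ + ‖f t (u n)‖ := by
    calc ‖f t x‖ = ‖(f t x - f t (u n)) + f t (u n)‖ := by rw [sub_add_cancel]
      _ ≤ _ := norm_add_le _ _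
  have h5 : C * ‖x - u n‖ ≤ (|C| + 1) * ‖u n - x‖ := by
    rw [norm_sub_rev]
    gcongr
    linarith [le_abs_self C]
  linarith

/-- Riemann-Lebesgue for all continuous functions -/
lemma decay_all (ν : ProbabilityMeasure X)
    (h : ∀ a : ℝ, Tendsto (fun s : ℝ => ∫ x : X, ee s a x ∂(ν : Measure X)) atTop (𝓝 0))
    (f : C(X, ℂ)) :
    Tendsto (fun s : ℝ => ∫ x : X, (ee s 0 * f) x ∂(ν : Measure X)) atTop (𝓝 0) := by
  have hint : ∀ φ : C(X, ℂ), Integrable φ (ν : Measure X) := fun φ =>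
    φ.continuous.integrable_of_hasCompactSupport (HasCompactSupport.of_compactSpace _)
  have hnorm : ∀ s x, ‖ee s 0 x‖ = 1 := fun s x => by
    rw [ee_apply, Complex.norm_exp_ofReal_mul_I]
  have hcl : IsClosed {f : C(X, ℂ) | Tendsto (fun s : ℝ => ∫ x : X, (ee s 0 * f) x
      ∂(ν : Measure X)) atTop (𝓝 0)} := by
    apply closed_conv (fun s f => ∫ x : X, (ee s 0 * f) x ∂(ν : Measure X)) 1
    intro s f f'
    rw [← integral_sub (hint _) (hint _), one_mul]
    refine (norm_integral_le_of_norm_le_const (C := ‖f - f'‖) (Eventually.of_forall ?_)).trans ?_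
    · intro x
      rw [ContinuousMap.mul_apply, ContinuousMap.mul_apply, ← mul_sub, norm_mul, hnorm, one_mul]
      exact (f - f').norm_coe_le_norm x
    · simp
  have hsub : ((Submodule.span ℂ (range fun n : ℤ => ee 0 n) : Submodule ℂ C(X, ℂ)) :
      Set C(X, ℂ)) ⊆ {f : C(X, ℂ) | Tendsto (fun s : ℝ => ∫ x : X, (ee s 0 * f) x
      ∂(ν : Measure X)) atTop (𝓝 0)} := by
    intro f hf
    induction hf using Submodule.span_induction with
    | mem x hx =>
      obtain ⟨n, rfl⟩ := hx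
      refine (h n).congr fun s => ?_
      rw [ee_mul]
      simp
    | zero => simp
    | add f f' _ _ h1 h2 =>
      have := h1.add h2
      rw [add_zero] at this
      refine this.congr fun s => ?_
      rw [← integral_add (hint _) (hint _)]
      congr 1
      ext x
      simp [mul_add]
    | smul c f _ h1 =>
      have := h1.const_mul c
      rw [mul_zero] at this
      refine this.congr fun s => ?_
      rw [← MeasureTheory.integral_const_mul]
      congr 1
      ext x
      simp [mul_left_comm]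
  have := (hcl.closure_subset_iff.2 hsub)
  rw [span_dense.closure_eq] at this
  exact this (mem_univ f)

/-! ### Multiplication operators -/

section

variable (ν : Measure X) [IsProbabilityMeasure ν]

/-- the Hilbert space -/
abbrev HH : Type := Lp ℂ 2 ν

/-- multiplication operators -/
def M : C(X, ℂ) →L[ℂ] (HH ν →L[ℂ] HH ν) :=
  ((ContinuousLinearMap.mul ℂ ℂ).holderL ν ∞ 2 2).comp
    (ContinuousMap.toLp ∞ ν ℂ : C(X, ℂ) →L[ℂ] Lp ℂ ∞ ν)

lemma M_coe (φ : C(X, ℂ)) (f : HH ν) : (M ν φ f : X → ℂ) =ᵐ[ν] fun x => φ x * f x := by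
  have h1 := ContinuousLinearMap.coeFn_holder (r := 2) (ContinuousLinearMap.mul ℂ ℂ)
    (ContinuousMap.toLp ∞ ν ℂ φ : Lp ℂ ∞ ν) f
  have h2 := ContinuousMap.coeFn_toLp (p := ∞) (𝕜 := ℂ) ν φ
  have h3 : (M ν φ f) = (ContinuousLinearMap.mul ℂ ℂ).holder 2
    (ContinuousMap.toLp ∞ ν ℂ φ : Lp ℂ ∞ ν) f := rfl
  rw [h3]
  filter_upwards [h1, h2] with x h1 h2
  rw [h1, h2]
  rfl

lemma M_mul (φ ψ : C(X, ℂ)) (f : HH ν) : M ν (φ * ψ) f = M ν φ (M ν ψ f) := by
  apply Lp.ext
  filter_upwards [M_coe ν (φ * ψ) f, M_coe ν φ (M ν ψ f), M_coe ν ψ f] with x h1 h2 h3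
  rw [h1, h2, h3, ContinuousMap.mul_apply, mul_assoc]

lemma M_one (f : HH ν) : M ν 1 f = f := by
  apply Lp.ext
  filter_upwards [M_coe ν 1 f] with x h1
  rw [h1]
  simp

lemma M_norm {φ : C(X, ℂ)} (hφ : ∀ x, ‖φ x‖ = 1) (f : HH ν) : ‖M ν φ f‖ ≤ ‖f‖ := by
  apply Lp.norm_le_norm_of_ae_le
  filter_upwards [M_coe ν φ f] with x h1
  rw [h1, norm_mul, hφ, one_mul]

/-- continuous functions in the Hilbert space -/
def ι : C(X, ℂ) →L[ℂ] HH ν := ContinuousMap.toLp 2 ν ℂ

lemma M_ι (φ ψ : C(X, ℂ)) : M ν φ (ι ν ψ) = ι ν (φ * ψ) := by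
  apply Lp.ext
  filter_upwards [M_coe ν φ (ι ν ψ), ContinuousMap.coeFn_toLp (p := 2) (𝕜 := ℂ) ν ψ,
    ContinuousMap.coeFn_toLp (p := 2) (𝕜 := ℂ) ν (φ * ψ)] with x h1 h2 h3
  rw [h1]
  unfold ι
  rw [h2, h3, ContinuousMap.mul_apply]

lemma ι_inner (φ ψ : C(X, ℂ)) : inner ℂ (ι ν φ) (ι ν ψ) = ∫ x, ψ x * conj (φ x) ∂ν :=
  ContinuousMap.inner_toLp ν φ ψ

lemma ι_dense : DenseRange (ι ν) := ContinuousMap.toLp_denseRange ℂ ν ℂ (by norm_num)

/-- the semigroup -/
def T (t : ℝ) : HH ν →L[ℂ] HH ν := M ν (ee (-t) 0)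

lemma T_norm (t : ℝ) (f : HH ν) : ‖T ν t f‖ ≤ ‖f‖ := by
  apply M_norm
  intro x
  rw [ee_apply, Complex.norm_exp_ofReal_mul_I]

lemma ee_cont : Continuous fun t : ℝ => ee (-t) 0 := by
  apply ContinuousMap.continuous_of_continuous_uncurry
  have h1 : Continuous fun p : ℝ × X => g (p.2 : ℝ) :=
    (continuousOn_g.domRestrict).comp continuous_snd
  have h2 : Continuous fun p : ℝ × X => cexp (((-p.1) * g p.2 + 0 * p.2 : ℝ) * I) := by
    apply Continuous.cexp
    apply Continuous.mul _ continuous_const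
    exact Complex.continuous_ofReal.comp (by fun_prop)
  exact h2

/-- weak stability of the semigroup -/
lemma T_stable (h : ∀ f : C(X, ℂ), Tendsto (fun s : ℝ => ∫ x : X, (ee s 0 * f) x ∂ν) atTop (𝓝 0))
    (x y : HH ν) : Tendsto (fun t : ℝ => inner ℂ (T ν t x) y) atTop (𝓝 0) := by
  have step1 : ∀ (φ : C(X, ℂ)) (y : HH ν),
      Tendsto (fun t : ℝ => inner ℂ (T ν t (ι ν φ)) y) atTop (𝓝 0) := by
    intro φ y
    refine (ι_dense ν).induction_on (p := fun y => Tendsto (fun t : ℝ =>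
      inner ℂ (T ν t (ι ν φ)) y) atTop (𝓝 0)) y ?_ ?_
    · apply closed_conv (fun t y => inner ℂ (T ν t (ι ν φ)) y) ‖ι ν φ‖
      intro t y y'
      rw [← inner_sub_right]
      refine (norm_inner_le_norm _ _).trans ?_
      gcongr
      exact T_norm ν t _
    · intro ψ
      refine (h (ψ * star φ)).congr fun t => ?_
      unfold T
      rw [M_ι, ι_inner]
      congr 1
      ext x
      have h1 : conj (ee (-t) 0 x) = ee t 0 x := by
        have h2 := congrArg (fun f : C(X, ℂ) => f x) (ee_star (-t) 0)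
        simp only [ContinuousMap.star_apply, neg_neg, neg_zero] at h2
        exact h2
      rw [ContinuousMap.mul_apply, ContinuousMap.mul_apply, ContinuousMap.mul_apply,
        ContinuousMap.star_apply, map_mul, h1]
      change _ * (_ * conj (φ x)) = _
      ring
  refine (ι_dense ν).induction_on (p := fun x => Tendsto (fun t : ℝ =>
      inner ℂ (T ν t x) y) atTop (𝓝 0)) x ?_ (fun φ => step1 φ y)
  apply closed_conv (fun t x => inner ℂ (T ν t x) y) ‖y‖
  intro t x x'
  rw [← inner_sub_left, ← map_sub]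
  refine (norm_inner_le_norm _ _).trans ?_
  rw [mul_comm]
  gcongr
  exact T_norm ν t _

/-- the function `e^{-t} e^{-itg}` -/
def ww (t : ℝ) : C(X, ℂ) := ((Real.exp (-t) : ℝ) : ℂ) • ee (-t) 0

lemma ww_int : IntegrableOn ww (Ioi (0 : ℝ)) := by
  have h1 : IntegrableOn (fun t : ℝ => Real.exp (-t)) (Ioi 0) := integrableOn_exp_neg_Ioi 0
  refine Integrable.mono' h1 ?_ ?_
  · apply Continuous.aestronglyMeasurable
    unfold ww
    exact (Complex.continuous_ofReal.comp (by fun_prop)).smul ee_cont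
  · refine Eventually.of_forall fun t => ?_
    unfold ww
    rw [norm_smul, Complex.norm_real, Real.norm_eq_abs, abs_of_pos (Real.exp_pos _)]
    have : ‖ee (-t) 0‖ ≤ 1 := by
      rw [ContinuousMap.norm_le _ zero_le_one]
      intro x
      rw [ee_apply, Complex.norm_exp_ofReal_mul_I]
    nlinarith [Real.exp_pos (-t)]

lemma ww_eval : 1 - (2 : ℂ) • (∫ t in Ioi (0 : ℝ), ww t) = ee 0 1 := by
  ext x
  have h1 : (∫ t in Ioi (0 : ℝ), ww t) x = ∫ t in Ioi (0 : ℝ), ww t x := by
    have := (ContinuousMap.evalCLM ℂ x : C(X, ℂ) →L[ℂ] ℂ).integral_comp_comm ww_int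
    exact this.symm
  have h2 : ∀ t : ℝ, ww t x = cexp (-(1 + g x * I) * t) := by
    intro t
    unfold ww
    rw [ContinuousMap.smul_apply, ee_apply, smul_eq_mul, Complex.ofReal_exp, ← Complex.exp_add]
    congr 1
    simp only [ph]
    push_cast
    ring
  have h3 : (-(1 + g x * I : ℂ)).re < 0 := by simp
  rw [ContinuousMap.sub_apply, ContinuousMap.smul_apply, h1]
  simp_rw [h2]
  rw [integral_exp_mul_complex_Ioi h3, ee_apply]
  simp only [ofReal_zero, mul_zero, Complex.exp_zero, ContinuousMap.one_apply, smul_eq_mul]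
  have hs : Real.sin (x / 2) ≠ 0 := by have := sin_lb x.2; linarith
  have hg : (g x : ℂ) = Complex.cos ((x : ℝ) / 2 : ℂ) / Complex.sin ((x : ℝ) / 2 : ℂ) := by
    unfold g
    push_cast
    rfl
  have hsC : Complex.sin ((x : ℝ) / 2 : ℂ) ≠ 0 := by
    have : Complex.sin ((x : ℝ) / 2 : ℂ) = ((Real.sin (x / 2) : ℝ) : ℂ) := by push_cast; rfl
    rw [this]
    exact_mod_cast hs
  have h4 : (1 + g x * I : ℂ) ≠ 0 := by
    intro h
    have := congrArg Complex.re h
    simp at this
  have h5 : cexp (ph 0 1 x * I) = (Complex.cos ((x : ℝ) / 2 : ℂ) +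
      Complex.sin ((x : ℝ) / 2 : ℂ) * I) ^ 2 := by
    rw [← Complex.exp_mul_I, ← Complex.exp_nat_mul]
    congr 1
    simp only [ph]
    push_cast
    ring
  rw [h5, hg]
  rw [hg] at h4
  set c := Complex.cos ((x : ℝ) / 2 : ℂ)
  set s := Complex.sin ((x : ℝ) / 2 : ℂ)
  have h6 : s ^ 2 + c ^ 2 = 1 := Complex.sin_sq_add_cos_sq _
  have h7 : s + c * I ≠ 0 := by
    intro h
    apply h4
    field_simp
    rw [h, mul_zero]
  have h8 : -(1 + c / s * I) = -(s + c * I) / s := by
    field_simp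
  rw [h8]
  have h9 : (1 : ℂ) - 2 * (-1 / (-(s + c * I) / s)) = (c * I - s) / (s + c * I) := by
    field_simp
    ring
  rw [h9, div_eq_iff h7]
  have hI := Complex.I_sq
  linear_combination (-(c + s * I) * I) * h6 + (-s - (c + s * I) * c * s) * hI

/-- the cogenerator -/
lemma V_eq (z : HH ν) : z - (2 : ℂ) • ∫ t in Ioi (0 : ℝ), ((Real.exp (-t) : ℝ) : ℂ) • T ν t z =
    M ν (ee 0 1) z := by
  have h1 : (∫ t in Ioi (0 : ℝ), ((Real.exp (-t) : ℝ) : ℂ) • T ν t z) =
      M ν (∫ t in Ioi (0 : ℝ), ww t) z := by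
    have h2 := ((ContinuousLinearMap.apply ℂ (HH ν) z).comp (M ν)).integral_comp_comm ww_int
    rw [ContinuousLinearMap.comp_apply] at h2
    rw [ContinuousLinearMap.apply_apply] at h2
    rw [← h2]
    congr 1
    ext1 t
    simp only [ContinuousLinearMap.comp_apply, ContinuousLinearMap.apply_apply, ww, T, map_smul,
      ContinuousLinearMap.smul_apply]
  rw [h1, ← ww_eval, map_sub, map_smul, ContinuousLinearMap.sub_apply,
    ContinuousLinearMap.smul_apply, M_one]

lemma V_iter (n : ℕ) (z : HH ν) : (fun z : HH ν => z - (2 : ℂ) • ∫ t in Ioi (0 : ℝ),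
    ((Real.exp (-t) : ℝ) : ℂ) • T ν t z)^[n] z = M ν (ee 0 n) z := by
  induction n with
  | zero =>
    simp [ee_zero, M_one]
  | succ n ih =>
    rw [Function.iterate_succ_apply', ih]
    change M ν (ee 0 n) z - (2 : ℂ) • ∫ t in Ioi (0 : ℝ),
      ((Real.exp (-t) : ℝ) : ℂ) • T ν t (M ν (ee 0 n) z) = _
    rw [V_eq, ← M_mul, ee_mul]
    congr 3
    · ring
    · push_cast; ring

end

/-- the counterexample -/
theorem main : ∃ (H : Type) (_ : NormedAddCommGroup H) (_ : InnerProductSpace ℂ H)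
    (_ : CompleteSpace H) (T : ℝ → H →L[ℂ] H), T 0 = 1 ∧
    (∀ s t : ℝ, 0 ≤ s → 0 ≤ t → T (s + t) = T s * T t) ∧
    (∀ x : H, ContinuousOn (fun t : ℝ => T t x) (Set.Ici 0)) ∧
    (∀ t : ℝ, 0 ≤ t → ‖T t‖ ≤ 1) ∧
    (∀ x y : H, Tendsto (fun t : ℝ => inner ℂ (T t x) y) atTop (𝓝 0)) ∧
    ¬ (∀ x y : H, Tendsto (fun n : ℕ =>
            inner ℂ ((fun z : H => z - (2 : ℂ) •
              ∫ t in Set.Ioi (0 : ℝ), ((Real.exp (-t) : ℝ) : ℂ) • T t z)^[n] x) y)
            atTop (𝓝 0)) := by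
  obtain ⟨ν, h1, h2⟩ := exists_meas
  refine ⟨HH (ν : Measure X), inferInstance, inferInstance, inferInstance, T (ν : Measure X),
    ?_, ?_, ?_, ?_, ?_, ?_⟩
  · ext1 z
    unfold T
    rw [neg_zero, ee_zero, M_one]
    rfl
  · intro s t _ _
    ext1 z
    unfold T
    rw [ContinuousLinearMap.mul_apply, ← M_mul, ee_mul]
    congr 3
    · ring
    · ring
  · intro x
    apply Continuous.continuousOn
    unfold T
    exact ((M (ν : Measure X)).continuous.comp ee_cont).clm_apply continuous_const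
  · intro t _
    refine ContinuousLinearMap.opNorm_le_bound _ zero_le_one fun z => ?_
    rw [one_mul]
    exact T_norm _ t z
  · exact T_stable _ (decay_all ν h1)
  · intro h
    have h3 := h (ι (ν : Measure X) 1) (ι (ν : Measure X) 1)
    have h4 : Tendsto nn atTop atTop := by
      apply tendsto_atTop_mono (f := id) _ tendsto_id
      intro k
      have : k < 256 ^ k := Nat.lt_pow_self (by norm_num)
      simp only [nn, id]
      have h5 : 256 ^ k ≤ 256 ^ (k + 1) := Nat.pow_le_pow_right (by norm_num) (by omega)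
      omega
    have h5 := (h3.comp h4).norm
    rw [norm_zero] at h5
    have h6 : ∀ k : ℕ, 1 / 8 ≤ ‖inner ℂ ((fun z : HH (ν : Measure X) => z - (2 : ℂ) •
        ∫ t in Set.Ioi (0 : ℝ), ((Real.exp (-t) : ℝ) : ℂ) • T (ν : Measure X) t z)^[nn k]
        (ι (ν : Measure X) 1)) (ι (ν : Measure X) 1)‖ := by
      intro k
      rw [V_iter, M_ι, ι_inner]
      have h7 : (∫ x : X, (1 : C(X, ℂ)) x * conj ((ee 0 (nn k) * 1 : C(X, ℂ)) x)
          ∂(ν : Measure X)) = conj (∫ x : X, ee 0 (nn k) x ∂(ν : Measure X)) := by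
        rw [← integral_conj]
        congr 1
        ext x
        simp
      rw [h7, Complex.norm_conj]
      exact h2 k
    have h8 : (1 / 8 : ℝ) ≤ 0 := ge_of_tendsto h5 (Eventually.of_forall h6)
    norm_num at h8

end

end Pool.Agent.U555.CG
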