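import Pool.Agent.U555.CG.Riesz

/-!
# The Riesz product measure
-/

set_option autoImplicit false

namespace Pool.Agent.U555.CG

open MeasureTheory intervalIntegral Complex Set Filter Topology

noncomputable section

/-- the compact space -/
abbrev X : Type := Icc (1 : ℝ) 2

/-- the masses -/
def cc (K : ℕ) : ℝ := ∫ x in (1 : ℝ)..2, P K x

lemma cc_eq (K : ℕ) : (cc K : ℂ) = F K 0 0 := by
  unfold cc F
  rw [← intervalIntegral.integral_ofReal]
  congr 1
  ext x
  simp [ph]

lemma cc_bd (K : ℕ) : 7 / 8 ≤ cc K ∧ cc K ≤ 9 / 8 := by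
  have h := mass_bd K
  rw [← cc_eq] at h
  have h1 : ‖((cc K - 1 : ℝ) : ℂ)‖ ≤ 1 / 8 := by push_cast; exact h
  rw [Complex.norm_real, Real.norm_eq_abs, abs_le] at h1
  constructor <;> linarith [h1.1, h1.2]

lemma cc_pos (K : ℕ) : 0 < cc K := by linarith [(cc_bd K).1]

/-- the approximating measures -/
def mm (K : ℕ) : Measure X :=
  (Measure.comap (Subtype.val : X → ℝ) volume).withDensity
    (fun x => ENNReal.ofReal (P K x / cc K))

lemma integral_mm (K : ℕ) (f : ℝ → ℂ) :
    ∫ x : X, f x ∂(mm K) = (cc K : ℂ)⁻¹ * ∫ x in (1 : ℝ)..2, f x * (P K x : ℂ) := by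
  unfold mm
  rw [integral_withDensity_eq_integral_toReal_smul]
  · have h1 : ∀ x : X, (ENNReal.ofReal (P K x / cc K)).toReal • f x =
        (fun y : ℝ => (cc K : ℂ)⁻¹ * (f y * (P K y : ℂ))) x := by
      intro x
      rw [ENNReal.toReal_ofReal (div_nonneg (P_nonneg K x) (cc_pos K).le), Complex.real_smul]
      push_cast
      ring
    simp_rw [h1]
    rw [integral_subtype_comap measurableSet_Icc (fun y : ℝ => (cc K : ℂ)⁻¹ * (f y * (P K y : ℂ))),
      MeasureTheory.integral_const_mul, intervalIntegral.integral_of_le (by norm_num),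
      integral_Icc_eq_integral_Ioc]
  · apply Measurable.ennreal_ofReal
    exact (((continuous_P K).comp continuous_subtype_val).div_const _).measurable
  · exact Eventually.of_forall fun x => ENNReal.ofReal_lt_top

lemma mm_univ (K : ℕ) : mm K univ = 1 := by
  unfold mm
  rw [withDensity_apply _ MeasurableSet.univ, Measure.restrict_univ,
    ← ofReal_integral_eq_lintegral_ofReal]
  · have h1 : ∫ x : X, P K x / cc K ∂(Measure.comap (Subtype.val : X → ℝ) volume) = 1 := by
      rw [integral_subtype_comap measurableSet_Icc (fun y : ℝ => P K y / cc K),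
        MeasureTheory.integral_div, integral_Icc_eq_integral_Ioc,
        ← intervalIntegral.integral_of_le (by norm_num)]
      exact div_self (cc_pos K).ne'
    rw [h1, ENNReal.ofReal_one]
  · have hc : Continuous (fun x : X => P K x / cc K) :=
      ((continuous_P K).comp continuous_subtype_val).div_const _
    have : IsFiniteMeasure (Measure.comap (Subtype.val : X → ℝ) volume) := by
      constructor
      rw [comap_subtype_coe_apply measurableSet_Icc, image_univ, Subtype.range_coe]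
      simp
    exact hc.integrable_of_hasCompactSupport (HasCompactSupport.of_compactSpace _)
  · exact Eventually.of_forall fun x => div_nonneg (P_nonneg K x) (cc_pos K).le

instance (K : ℕ) : IsProbabilityMeasure (mm K) := ⟨mm_univ K⟩

/-- oscillating functions -/
def ee (s a : ℝ) : C(X, ℂ) :=
  ⟨fun x => cexp (ph s a x * I), by
    exact (continuousOn_e s a).domRestrict⟩

lemma integral_ee (K : ℕ) (s a : ℝ) : ∫ x : X, ee s a x ∂(mm K) = (cc K : ℂ)⁻¹ * F K s a :=
  integral_mm K (fun x => cexp (ph s a x * I))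

theorem exists_meas : ∃ ν : ProbabilityMeasure X,
    (∀ a : ℝ, Tendsto (fun s : ℝ => ∫ x : X, ee s a x ∂(ν : Measure X)) atTop (𝓝 0)) ∧
    ∀ k : ℕ, 1 / 8 ≤ ‖∫ x : X, ee 0 (nn k) x ∂(ν : Measure X)‖ := by
  let u : ℕ → ProbabilityMeasure X := fun K => ⟨mm K, inferInstance⟩
  obtain ⟨ν, -, hν⟩ := isCompact_univ.ultrafilter_le_nhds
    (Ultrafilter.map u (hyperfilter ℕ)) (by simp)
  have hu : Tendsto u (hyperfilter ℕ) (𝓝 ν) := hν
  rw [ProbabilityMeasure.tendsto_iff_forall_integral_rclike_tendsto ℂ] at hu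
  have hlim : ∀ s a : ℝ, Tendsto (fun K => (cc K : ℂ)⁻¹ * F K s a) (hyperfilter ℕ)
      (𝓝 (∫ x : X, ee s a x ∂(ν : Measure X))) := by
    intro s a
    have h := hu (BoundedContinuousFunction.mkOfCompact (ee s a))
    refine h.congr fun K => ?_
    exact integral_ee K s a
  have hev : ∀ k : ℕ, ∀ᶠ K in (hyperfilter ℕ : Filter ℕ), k ≤ K := fun k =>
    (eventually_ge_atTop k).filter_mono Nat.hyperfilter_le_atTop
  have hc : ∀ K, ‖((cc K : ℂ)⁻¹)‖ ≤ 2 ∧ 1 / 2 ≤ ‖((cc K : ℂ)⁻¹)‖ := by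
    intro K
    have h1 := cc_bd K
    have h2 := cc_pos K
    rw [norm_inv, Complex.norm_real, Real.norm_eq_abs, abs_of_pos h2]
    constructor
    · rw [inv_le_comm₀ h2 (by norm_num)]; linarith [h1.1]
    · rw [le_inv_comm₀ (by norm_num) h2]; linarith [h1.2]
  refine ⟨ν, fun a => ?_, fun k => ?_⟩
  · rw [Metric.tendsto_atTop]
    intro ε hε
    obtain ⟨j0, hj0⟩ : ∃ j0 : ℕ, ∀ j ≥ j0, |a| ≤ nn j / 4 ∧ 68 * (1 / 2 : ℝ) ^ j < ε := by
      have h1 : Tendsto (fun j : ℕ => 68 * (1 / 2 : ℝ) ^ j) atTop (𝓝 (68 * 0)) :=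
        (tendsto_pow_atTop_nhds_zero_of_lt_one (by norm_num) (by norm_num)).const_mul 68
      rw [mul_zero] at h1
      have h2 := h1.eventually (gt_mem_nhds hε)
      have h3 : Tendsto (fun j : ℕ => (256 : ℝ) ^ j) atTop atTop :=
        tendsto_pow_atTop_atTop_of_one_lt (by norm_num)
      have h4 := h3.eventually_ge_atTop (4 * |a|)
      obtain ⟨j0, h5⟩ := eventually_atTop.1 (h2.and h4)
      refine ⟨j0, fun j hj => ⟨?_, (h5 j hj).1⟩⟩
      have h6 := (h5 j hj).2
      have h7 : (nn j : ℝ) = 256 ^ j * 256 := by simp only [nn]; push_cast; ring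
      have h8 : (0 : ℝ) < 256 ^ j := by positivity
      rw [h7]
      linarith
    refine ⟨16 ^ j0, fun s hs => ?_⟩
    have hs1 : (1 : ℝ) ≤ s := le_trans (one_le_pow₀ (by norm_num)) hs
    obtain ⟨j, h1, h2⟩ := exists_nat_pow_near hs1 (by norm_num : (1 : ℝ) < 16)
    have hj : j0 ≤ j := by
      by_contra hlt
      have h3 : j + 1 ≤ j0 := by omega
      have h4 : (16 : ℝ) ^ (j + 1) ≤ 16 ^ j0 := pow_le_pow_right₀ (by norm_num) h3
      have h5 : (16 : ℝ) ^ j0 ≤ s := hs
      linarith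
    rw [dist_zero_right]
    refine lt_of_le_of_lt ?_ (hj0 j hj).2
    refine le_of_tendsto (hlim s a).norm ?_
    filter_upwards [hev j] with K hK
    rw [norm_mul]
    have h3 := decay a j (hj0 j hj).1 h1 h2.le K hK
    have h4 := (hc K).1
    have h5 : (0 : ℝ) ≤ (1 / 2) ^ j := by positivity
    calc ‖((cc K : ℂ)⁻¹)‖ * ‖F K s a‖ ≤ 2 * (34 * (1 / 2) ^ j) := by gcongr
      _ = 68 * (1 / 2) ^ j := by ring
  · refine ge_of_tendsto (hlim 0 (nn k)).norm ?_
    filter_upwards [hev (k + 1)] with K hK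
    rw [norm_mul]
    have h3 := lower k K hK
    have h4 := (hc K).2
    calc (1 : ℝ) / 8 = 1 / 2 * (1 / 4) := by norm_num
      _ ≤ _ := by gcongr

end

end Pool.Agent.U555.CG
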