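import Pool.Agent.U555.CG.Vdc

/-!
# Oscillatory integrals against partial Riesz products
-/

set_option autoImplicit false

namespace Pool.Agent.U555.CG

open MeasureTheory intervalIntegral Complex Set Filter Topology

noncomputable section

/-- the cotangent of half the angle -/
def g (x : ℝ) : ℝ := Real.cos (x / 2) / Real.sin (x / 2)

/-- its first derivative -/
def g1 (x : ℝ) : ℝ := -(1 / (2 * Real.sin (x / 2) ^ 2))

/-- its second derivative -/
def g2 (x : ℝ) : ℝ := Real.cos (x / 2) / (2 * Real.sin (x / 2) ^ 3)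

lemma sin_lb {x : ℝ} (hx : x ∈ Icc (1 : ℝ) 2) : 1 / 4 ≤ Real.sin (x / 2) := by
  have h0 : 0 ≤ x / 2 := by linarith [hx.1]
  have h1 : x / 2 ≤ Real.pi / 2 := by
    have := Real.pi_gt_three
    linarith [hx.2]
  have h2 := Real.mul_le_sin h0 h1
  have h3 : 1 / 4 ≤ 2 / Real.pi * (x / 2) := by
    rw [div_mul_eq_mul_div, le_div_iff₀ Real.pi_pos]
    have := Real.pi_le_four
    linarith [hx.1]
  linarith

lemma cos_lb {x : ℝ} (hx : x ∈ Icc (1 : ℝ) 2) : 1 / 2 ≤ Real.cos (x / 2) := by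
  have := Real.one_sub_sq_div_two_le_cos (x := x / 2)
  nlinarith [hx.1, hx.2]

lemma hasDerivAt_g {x : ℝ} (hx : x ∈ Icc (1 : ℝ) 2) : HasDerivAt g (g1 x) x := by
  have hs : Real.sin (x / 2) ≠ 0 := by have := sin_lb hx; linarith
  have h1 : HasDerivAt (fun x : ℝ => x / 2) (1 / 2) x := (hasDerivAt_id x).div_const 2
  have h2 := (Real.hasDerivAt_cos (x / 2)).comp x h1
  have h3 := (Real.hasDerivAt_sin (x / 2)).comp x h1
  have h4 := h2.div h3 hs
  refine h4.congr_deriv ?_
  simp only [g1, Function.comp_apply]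
  have := Real.sin_sq_add_cos_sq (x / 2)
  field_simp
  linear_combination -this

lemma hasDerivAt_g1 {x : ℝ} (hx : x ∈ Icc (1 : ℝ) 2) : HasDerivAt g1 (g2 x) x := by
  have hs : Real.sin (x / 2) ≠ 0 := by have := sin_lb hx; linarith
  have h1 : HasDerivAt (fun x : ℝ => x / 2) (1 / 2) x := (hasDerivAt_id x).div_const 2
  have h3 := (Real.hasDerivAt_sin (x / 2)).comp x h1
  have h4 := ((h3.pow 2).const_mul 2)
  have h5 : (2 : ℝ) * (Real.sin ∘ fun x : ℝ => x / 2) x ^ 2 ≠ 0 := by
    simp only [Function.comp_apply]; positivity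
  have h6 := ((hasDerivAt_const x (1 : ℝ)).div h4 h5).neg
  refine h6.congr_deriv ?_
  simp only [g2, Function.comp_apply, Pi.pow_apply]
  field_simp
  ring

lemma continuousOn_g2 : ContinuousOn g2 (Icc 1 2) := by
  unfold g2
  apply ContinuousOn.div
  · fun_prop
  · fun_prop
  · intro x hx
    have := sin_lb hx
    positivity

lemma continuousOn_g1 : ContinuousOn g1 (Icc 1 2) :=
  fun _ hx => (hasDerivAt_g1 hx).continuousAt.continuousWithinAt

lemma continuousOn_g : ContinuousOn g (Icc 1 2) :=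
  fun _ hx => (hasDerivAt_g hx).continuousAt.continuousWithinAt

lemma g2_lb {x : ℝ} (hx : x ∈ Icc (1 : ℝ) 2) : 1 / 4 ≤ g2 x := by
  have h1 := sin_lb hx
  have h2 := cos_lb hx
  have h3 := Real.sin_le_one (x / 2)
  unfold g2
  rw [le_div_iff₀ (by positivity)]
  have h4 : Real.sin (x / 2) ^ 3 ≤ 1 := pow_le_one₀ (by linarith) h3
  linarith

lemma g1_bd {x : ℝ} (hx : x ∈ Icc (1 : ℝ) 2) : |g1 x| ≤ 8 := by
  have h1 := sin_lb hx
  unfold g1
  rw [abs_neg, abs_of_pos (by positivity), div_le_iff₀ (by positivity)]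
  nlinarith

/-- the phase -/
def ph (s m x : ℝ) : ℝ := s * g x + m * x

lemma continuousOn_ph (s m : ℝ) : ContinuousOn (ph s m) (Icc 1 2) :=
  (continuousOn_const.mul continuousOn_g).add (continuousOn_const.mul continuousOn_id)

lemma hasDerivAt_ph (s m : ℝ) {x : ℝ} (hx : x ∈ Icc (1 : ℝ) 2) :
    HasDerivAt (ph s m) (s * g1 x + m) x := by
  have h : HasDerivAt (fun y => s * g y + m * y) (s * g1 x + m * 1) x :=
    ((hasDerivAt_g hx).const_mul s).add ((hasDerivAt_id x).const_mul m)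
  rw [mul_one] at h
  exact h

/-- the frequencies -/
def nn (k : ℕ) : ℕ := 256 ^ (k + 1)

/-- partial Riesz products -/
def P (K : ℕ) (x : ℝ) : ℝ := ∏ k ∈ Finset.range K, (1 + Real.cos (nn k * x))

lemma P_nonneg (K : ℕ) (x : ℝ) : 0 ≤ P K x :=
  Finset.prod_nonneg fun k _ => by linarith [Real.neg_one_le_cos (nn k * x)]

@[fun_prop]
lemma continuous_P (K : ℕ) : Continuous (P K) := by
  unfold P
  fun_prop

/-- the basic integrals -/
def F (K : ℕ) (s m : ℝ) : ℂ := ∫ x in (1 : ℝ)..2, cexp (ph s m x * I) * (P K x : ℂ)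

lemma continuousOn_e (s m : ℝ) : ContinuousOn (fun x => cexp (ph s m x * I)) (Icc 1 2) := by
  apply ContinuousOn.cexp
  exact (Complex.continuous_ofReal.comp_continuousOn (continuousOn_ph s m)).mul continuousOn_const

lemma intervalIntegrable_F (K : ℕ) (s m : ℝ) :
    IntervalIntegrable (fun x => cexp (ph s m x * I) * (P K x : ℂ)) volume 1 2 := by
  apply ContinuousOn.intervalIntegrable
  rw [uIcc_of_le (by norm_num)]
  exact (continuousOn_e s m).mul
    (Complex.continuous_ofReal.comp (continuous_P K)).continuousOn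

lemma F_succ (K : ℕ) (s m : ℝ) :
    F (K + 1) s m = F K s m + (1 / 2) * (F K s (m + nn K) + F K s (m - nn K)) := by
  have h1 : ∀ x : ℝ, cexp (ph s m x * I) * (P (K + 1) x : ℂ) =
      cexp (ph s m x * I) * (P K x : ℂ) + (1 / 2) * (cexp (ph s (m + nn K) x * I) * (P K x : ℂ) +
        cexp (ph s (m - nn K) x * I) * (P K x : ℂ)) := by
    intro x
    have e1 : cexp (ph s (m + nn K) x * I) = cexp (ph s m x * I) * cexp ((nn K * x : ℝ) * I) := by
      rw [← Complex.exp_add]
      congr 1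
      simp only [ph]
      push_cast
      ring
    have e2 : cexp (ph s (m - nn K) x * I) = cexp (ph s m x * I) * cexp (-(nn K * x : ℝ) * I) := by
      rw [← Complex.exp_add]
      congr 1
      simp only [ph]
      push_cast
      ring
    have e3 : P (K + 1) x = P K x * (1 + Real.cos (nn K * x)) := by
      simp only [P, Finset.prod_range_succ]
    rw [e1, e2, e3]
    push_cast
    rw [Complex.cos]
    ring
  unfold F
  simp_rw [h1]
  rw [intervalIntegral.integral_add (intervalIntegrable_F K s m)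
    (((intervalIntegrable_F K s _).add (intervalIntegrable_F K s _)).const_mul _),
    intervalIntegral.integral_const_mul,
    intervalIntegral.integral_add (intervalIntegrable_F K s _) (intervalIntegrable_F K s _)]

/-- first bound -/
lemma base_A {s : ℝ} (hs : 0 < s) (m : ℝ) : ‖F 0 s m‖ ≤ 16 / √s := by
  have h1 : F 0 s m = ∫ x in (1 : ℝ)..2, cexp (ph s m x * I) := by
    unfold F
    simp [P]
  rw [h1]
  have h2 := vdc (a := 1) (b := 2) (l := s / 4) (φ := ph s m) (u := fun x => s * g1 x + m)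
    (v := fun x => s * g2 x) (by norm_num) (by positivity) ?_ ?_ ?_ ?_
  · refine h2.trans (le_of_eq ?_)
    have h4 : √(s / 4) = √s / 2 := by
      rw [Real.sqrt_div hs.le]
      congr 1
      rw [show (4 : ℝ) = 2 ^ 2 by norm_num, Real.sqrt_sq (by norm_num)]
    rw [h4]
    have := Real.sqrt_pos.2 hs
    field_simp
    norm_num
  · intro x hx
    exact hasDerivAt_ph s m hx
  · intro x hx
    have := ((hasDerivAt_g1 hx).const_mul s).add_const m
    simpa using this
  · exact continuousOn_const.mul continuousOn_g2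
  · intro x hx
    have := mul_le_mul_of_nonneg_left (g2_lb hx) hs.le
    linarith

/-- second bound -/
lemma base_B {s : ℝ} (hs : 0 ≤ s) {m : ℝ} (hm : m ≠ 0) : ‖F 0 s m‖ ≤ 8 * (1 + s) / |m| := by
  have h1 : F 0 s m = ∫ x in (1 : ℝ)..2, cexp (ph s m x * I) := by
    unfold F
    simp [P]
  have hmC : (m : ℂ) ≠ 0 := by exact_mod_cast hm
  have hI : uIcc (1 : ℝ) 2 = Icc 1 2 := uIcc_of_le (by norm_num)
  have hm0 : 0 < |m| := abs_pos.2 hm
  -- `m i ∫ e = [e] - ∫ s g1 i e`
  have h2 : ∫ x in (1 : ℝ)..2, (cexp (ph s m x * I) * (((s * g1 x + m : ℝ) : ℂ) * I)) =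
      cexp (ph s m 2 * I) - cexp (ph s m 1 * I) := by
    apply integral_eq_sub_of_hasDerivAt (f := fun x => cexp (ph s m x * I))
    · intro x hx
      rw [hI] at hx
      have h3 : HasDerivAt (ph s m) (s * g1 x + m) x := hasDerivAt_ph s m hx
      exact (h3.ofReal_comp.mul_const I).cexp
    · apply ContinuousOn.intervalIntegrable
      rw [hI]
      refine (continuousOn_e s m).mul (ContinuousOn.mul ?_ continuousOn_const)
      exact Complex.continuous_ofReal.comp_continuousOn
        ((continuousOn_const.mul continuousOn_g1).add continuousOn_const)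
  have hi1 : IntervalIntegrable (fun x => cexp (ph s m x * I) * (((s * g1 x : ℝ) : ℂ) * I))
      volume 1 2 := by
    apply ContinuousOn.intervalIntegrable
    rw [hI]
    refine (continuousOn_e s m).mul (ContinuousOn.mul ?_ continuousOn_const)
    exact Complex.continuous_ofReal.comp_continuousOn (continuousOn_const.mul continuousOn_g1)
  have hi2 : IntervalIntegrable (fun x => cexp (ph s m x * I)) volume 1 2 := by
    apply ContinuousOn.intervalIntegrable
    rw [hI]
    exact continuousOn_e s m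
  have h3 : ∫ x in (1 : ℝ)..2, (cexp (ph s m x * I) * (((s * g1 x + m : ℝ) : ℂ) * I)) =
      (∫ x in (1 : ℝ)..2, cexp (ph s m x * I) * (((s * g1 x : ℝ) : ℂ) * I)) +
      (m * I) * ∫ x in (1 : ℝ)..2, cexp (ph s m x * I) := by
    rw [← intervalIntegral.integral_const_mul, ← intervalIntegral.integral_add hi1
      (hi2.const_mul _)]
    congr 1
    ext x
    push_cast
    ring
  have h4 : ‖∫ x in (1 : ℝ)..2, cexp (ph s m x * I) * (((s * g1 x : ℝ) : ℂ) * I)‖ ≤ 8 * s := by
    have := intervalIntegral.norm_integral_le_of_norm_le_const (a := (1 : ℝ)) (b := 2) (C := 8 * s)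
      (f := fun x => cexp (ph s m x * I) * (((s * g1 x : ℝ) : ℂ) * I)) ?_
    · refine this.trans (le_of_eq ?_)
      norm_num
    · intro x hx
      rw [uIoc_of_le (by norm_num)] at hx
      have hx' : x ∈ Icc (1 : ℝ) 2 := ⟨hx.1.le, hx.2⟩
      rw [norm_mul, Complex.norm_exp_ofReal_mul_I, one_mul, norm_mul, Complex.norm_I, mul_one,
        Complex.norm_real, Real.norm_eq_abs, abs_mul, abs_of_nonneg hs]
      have := mul_le_mul_of_nonneg_left (g1_bd hx') hs
      linarith
  have h5 : (m * I) * ∫ x in (1 : ℝ)..2, cexp (ph s m x * I) =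
      cexp (ph s m 2 * I) - cexp (ph s m 1 * I) -
      ∫ x in (1 : ℝ)..2, cexp (ph s m x * I) * (((s * g1 x : ℝ) : ℂ) * I) := by
    rw [← h2, h3]; ring
  have h6 : ‖(m * I) * ∫ x in (1 : ℝ)..2, cexp (ph s m x * I)‖ ≤ 8 * (1 + s) := by
    rw [h5]
    refine (norm_sub_le _ _).trans ?_
    have := norm_sub_le (cexp (ph s m 2 * I)) (cexp (ph s m 1 * I))
    rw [Complex.norm_exp_ofReal_mul_I, Complex.norm_exp_ofReal_mul_I] at this
    linarith
  rw [norm_mul, norm_mul, Complex.norm_I, mul_one, Complex.norm_real, Real.norm_eq_abs,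
    mul_comm] at h6
  rw [h1, le_div_iff₀ hm0]
  exact h6

lemma bound_A {s : ℝ} (hs : 0 < s) (K : ℕ) : ∀ m : ℝ, ‖F K s m‖ ≤ 2 ^ K * (16 / √s) := by
  induction K with
  | zero => intro m; simpa using base_A hs m
  | succ K ih =>
    intro m
    rw [F_succ]
    refine (norm_add_le _ _).trans ?_
    rw [norm_mul]
    have h1 := ih m
    have h2 := ih (m + nn K)
    have h3 := ih (m - nn K)
    have h4 := norm_add_le (F K s (m + nn K)) (F K s (m - nn K))
    have h5 : ‖(1 / 2 : ℂ)‖ = 1 / 2 := by norm_num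
    rw [h5, pow_succ]
    linarith

/-- sum of the frequencies -/
def N (K : ℕ) : ℝ := ∑ k ∈ Finset.range K, (nn k : ℝ)

lemma N_succ (K : ℕ) : N (K + 1) = N K + nn K := Finset.sum_range_succ _ _

lemma N_nonneg (K : ℕ) : 0 ≤ N K := Finset.sum_nonneg fun _ _ => Nat.cast_nonneg _

lemma N_le (K : ℕ) : 255 * N K ≤ nn K := by
  induction K with
  | zero => simp [N, nn]
  | succ K ih =>
    rw [N_succ]
    have h : (nn (K + 1) : ℝ) = 256 * nn K := by
      simp only [nn]; push_cast; ring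
    rw [h]
    linarith

lemma bound_B {s : ℝ} (hs : 0 ≤ s) (K : ℕ) :
    ∀ m : ℝ, N K < |m| → ‖F K s m‖ ≤ 2 ^ K * (8 * (1 + s)) / (|m| - N K) := by
  induction K with
  | zero =>
    intro m hm
    have h0 : N 0 = 0 := by simp [N]
    rw [h0] at hm ⊢
    have := base_B hs (abs_pos.1 hm)
    simpa using this
  | succ K ih =>
    intro m hm
    rw [N_succ] at hm ⊢
    have hn : (0 : ℝ) ≤ nn K := Nat.cast_nonneg _
    have hN := N_nonneg K
    have key : ∀ m' : ℝ, |m| - nn K ≤ |m'| →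
        ‖F K s m'‖ ≤ 2 ^ K * (8 * (1 + s)) / (|m| - (N K + nn K)) := by
      intro m' hm'
      refine (ih m' (by linarith)).trans ?_
      apply div_le_div_of_nonneg_left (by positivity) (by linarith) (by linarith)
    have h1 := key m (by linarith)
    have h2 := key (m + nn K) (by
      have := abs_sub_abs_le_abs_sub m (-(nn K : ℝ))
      rw [abs_neg, abs_of_nonneg hn, sub_neg_eq_add] at this
      exact this)
    have h3 := key (m - nn K) (by
      have := abs_sub_abs_le_abs_sub m (nn K : ℝ)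
      rw [abs_of_nonneg hn] at this
      exact this)
    rw [F_succ]
    refine (norm_add_le _ _).trans ?_
    rw [norm_mul]
    have h4 := norm_add_le (F K s (m + nn K)) (F K s (m - nn K))
    have h5 : ‖(1 / 2 : ℂ)‖ = 1 / 2 := by norm_num
    rw [h5]
    have h6 : (2 : ℝ) ^ (K + 1) * (8 * (1 + s)) / (|m| - (N K + nn K)) =
        2 ^ K * (8 * (1 + s)) / (|m| - (N K + nn K)) +
        2 ^ K * (8 * (1 + s)) / (|m| - (N K + nn K)) := by
      rw [pow_succ]; ring
    rw [h6]
    linarith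

/-- increments -/
lemma incr {s : ℝ} (hs : 0 ≤ s) (K : ℕ) (m : ℝ) (hm : |m| ≤ nn K / 4) :
    ‖F (K + 1) s m - F K s m‖ ≤ 16 * (1 + s) / 256 * (1 / 128) ^ K := by
  have hn : (0 : ℝ) < nn K := by simp only [nn]; positivity
  have hN := N_le K
  have key : ∀ m' : ℝ, nn K - |m| ≤ |m'| → ‖F K s m'‖ ≤ 16 * (1 + s) / 256 * (1 / 128) ^ K := by
    intro m' hm'
    have h1 : N K < |m'| := by linarith
    refine (bound_B hs K m' h1).trans ?_
    have h2 : (nn K : ℝ) / 2 ≤ |m'| - N K := by linarith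
    calc 2 ^ K * (8 * (1 + s)) / (|m'| - N K) ≤ 2 ^ K * (8 * (1 + s)) / (nn K / 2) := by
          apply div_le_div_of_nonneg_left (by positivity) (by linarith) h2
      _ = 16 * (1 + s) / 256 * (1 / 128) ^ K := by
          simp only [nn]
          push_cast
          rw [pow_succ, one_div, inv_pow, show (256 : ℝ) ^ K = 2 ^ K * 128 ^ K by
            rw [← mul_pow]; norm_num]
          field_simp
          ring
  rw [F_succ, add_sub_cancel_left, norm_mul]
  have h4 := norm_add_le (F K s (m + nn K)) (F K s (m - nn K))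
  have h5 : ‖(1 / 2 : ℂ)‖ = 1 / 2 := by norm_num
  rw [h5]
  have h2 := key (m + nn K) (by
    have := abs_sub_abs_le_abs_sub (nn K : ℝ) (-m)
    rw [abs_neg, abs_of_nonneg hn.le, sub_neg_eq_add, add_comm] at this
    exact this)
  have h3 := key (m - nn K) (by
    have := abs_sub_abs_le_abs_sub (nn K : ℝ) m
    rw [abs_of_nonneg hn.le, abs_sub_comm] at this
    exact this)
  linarith

/-- telescoping -/
lemma tele {s : ℝ} (hs : 0 ≤ s) (k : ℕ) (m : ℝ) (hm : |m| ≤ nn k / 4) (K : ℕ) (hK : k ≤ K) :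
    ‖F K s m - F k s m‖ ≤ (1 + s) / 8 * ((1 / 128) ^ k - (1 / 128) ^ K) := by
  induction K, hK using Nat.le_induction with
  | base => simp
  | succ K hK ih =>
    have hm' : |m| ≤ nn K / 4 := by
      refine hm.trans ?_
      gcongr
      simp only [nn]
      gcongr
      norm_num
    have h1 := incr hs K m hm'
    have h2 : F (K + 1) s m - F k s m = (F (K + 1) s m - F K s m) + (F K s m - F k s m) := by ring
    rw [h2]
    refine (norm_add_le _ _).trans ?_
    have h3 : 16 * (1 + s) / 256 * (1 / 128) ^ K ≤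
        (1 + s) / 8 * ((1 / 128) ^ K - (1 / 128) ^ (K + 1)) := by
      rw [pow_succ]
      have : (0 : ℝ) ≤ (1 + s) * (1 / 128) ^ K := by positivity
      nlinarith
    linarith

/-- uniform decay -/
lemma decay (a : ℝ) (j : ℕ) (ha : |a| ≤ nn j / 4) {s : ℝ} (h1 : 16 ^ j ≤ s) (h2 : s ≤ 16 ^ (j + 1))
    (K : ℕ) (hK : j ≤ K) : ‖F K s a‖ ≤ 34 * (1 / 2) ^ j := by
  have hs : 0 < s := lt_of_lt_of_le (by positivity) h1
  have h3 := tele hs.le j a ha K hK
  have h4 := bound_A hs j a
  have h5 : (2 : ℝ) ^ j * (16 / √s) ≤ 16 * (1 / 2) ^ j := by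
    have h6 : (4 : ℝ) ^ j ≤ √s := by
      apply Real.le_sqrt_of_sq_le
      rw [← pow_mul, mul_comm, pow_mul]
      norm_num
      exact h1
    have h7 : (16 : ℝ) / √s ≤ 16 / 4 ^ j := by
      apply div_le_div_of_nonneg_left (by norm_num) (by positivity) h6
    calc (2 : ℝ) ^ j * (16 / √s) ≤ 2 ^ j * (16 / 4 ^ j) := by gcongr
      _ = 16 * (1 / 2) ^ j := by
        rw [show (4 : ℝ) ^ j = 2 ^ j * 2 ^ j by rw [← mul_pow]; norm_num, one_div, inv_pow]
        field_simp
  have h8 : (1 + s) / 8 * ((1 / 128) ^ j - (1 / 128) ^ K) ≤ 4 * (1 / 2) ^ j := by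
    have h9 : (1 + s) / 8 ≤ 4 * 16 ^ j := by
      have : (1 : ℝ) ≤ 16 ^ j := one_le_pow₀ (by norm_num)
      rw [pow_succ] at h2
      linarith
    have h10 : ((1 : ℝ) / 128) ^ j - (1 / 128) ^ K ≤ (1 / 128) ^ j := by
      have : (0 : ℝ) ≤ (1 / 128) ^ K := by positivity
      linarith
    calc (1 + s) / 8 * ((1 / 128) ^ j - (1 / 128) ^ K) ≤ (1 + s) / 8 * (1 / 128) ^ j := by
          gcongr
      _ ≤ 4 * 16 ^ j * (1 / 128) ^ j := by gcongr
      _ = 4 * (1 / 8) ^ j := by
          rw [mul_assoc, ← mul_pow]; norm_num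
      _ ≤ 4 * (1 / 2) ^ j := by gcongr; norm_num
  have h11 : F K s a = (F K s a - F j s a) + F j s a := by ring
  rw [h11]
  refine (norm_add_le _ _).trans ?_
  have : (0 : ℝ) ≤ (1 / 2) ^ j := by positivity
  linarith

/-- total masses -/
lemma mass_bd (K : ℕ) : ‖F K 0 0 - 1‖ ≤ 1 / 8 := by
  have h1 := tele le_rfl 0 0 (by rw [abs_zero]; positivity) K (Nat.zero_le _)
  have h2 : F 0 0 0 = 1 := by
    simp [F, ph, P]
    norm_num
  rw [h2] at h1
  have : (0 : ℝ) ≤ (1 / 128) ^ K := by positivity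
  simp only [pow_zero] at h1
  linarith

/-- lower bound at the frequencies -/
lemma lower (k K : ℕ) (hK : k + 1 ≤ K) : 1 / 4 ≤ ‖F K 0 (nn k)‖ := by
  have hn : (0 : ℝ) < nn k := by simp only [nn]; positivity
  have hs : (nn (k + 1) : ℝ) = 256 * nn k := by simp only [nn]; push_cast; ring
  have h1 := tele le_rfl (k + 1) (nn k) (by rw [hs, abs_of_pos hn]; linarith) K hK
  have h2 := F_succ k 0 (nn k)
  rw [sub_self] at h2
  have hN := N_le k
  have hN0 := N_nonneg k
  have hge : (256 : ℝ) * 2 ^ k ≤ nn k := by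
    simp only [nn]
    push_cast
    rw [pow_succ, mul_comm]
    gcongr
    norm_num
  have small : ∀ m : ℝ, nn k ≤ |m| → ‖F k 0 m‖ ≤ 1 / 16 := by
    intro m hm
    refine (bound_B le_rfl k m (by linarith)).trans ?_
    rw [div_le_iff₀ (by linarith)]
    linarith
  have h3 := small (nn k) (le_abs_self _)
  have h4 := small (nn k + nn k) (by rw [abs_of_pos (by positivity)]; linarith)
  have h5 := mass_bd k
  have h6 : F K 0 (nn k) = (F K 0 (nn k) - F (k + 1) 0 (nn k)) + F k 0 (nn k) +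
      (1 / 2) * F k 0 (nn k + nn k) + (1 / 2) * (F k 0 0 - 1) + 1 / 2 := by
    rw [h2]; ring
  have h7 : ‖(1 / 2 : ℂ)‖ = 1 / 2 := by norm_num
  have h8 : ‖F K 0 (nn k) - 1 / 2‖ ≤ 1 / 4 := by
    have : F K 0 (nn k) - 1 / 2 = (F K 0 (nn k) - F (k + 1) 0 (nn k)) + F k 0 (nn k) +
      (1 / 2) * F k 0 (nn k + nn k) + (1 / 2) * (F k 0 0 - 1) := by
      rw [h2]; ring
    rw [this]
    refine (norm_add_le _ _).trans ?_
    have a1 := norm_add_le (F K 0 (nn k) - F (k + 1) 0 (nn k) + F k 0 (nn k))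
      ((1 / 2) * F k 0 (nn k + nn k))
    have a2 := norm_add_le (F K 0 (nn k) - F (k + 1) 0 (nn k)) (F k 0 (nn k))
    rw [norm_mul, h7] at a1 ⊢
    have a3 : (1 + (0 : ℝ)) / 8 * ((1 / 128) ^ (k + 1) - (1 / 128) ^ K) ≤ 1 / 32 := by
      have : (0 : ℝ) ≤ (1 / 128) ^ K := by positivity
      have : ((1 : ℝ) / 128) ^ (k + 1) ≤ 1 / 128 := by
        rw [pow_succ]
        have : ((1 : ℝ) / 128) ^ k ≤ 1 := pow_le_one₀ (by norm_num) (by norm_num)
        linarith
      linarith
    linarith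
  have h9 : ‖(1 / 2 : ℂ)‖ ≤ ‖F K 0 (nn k)‖ + ‖F K 0 (nn k) - 1 / 2‖ := by
    have : (1 / 2 : ℂ) = F K 0 (nn k) - (F K 0 (nn k) - 1 / 2) := by ring
    calc ‖(1 / 2 : ℂ)‖ = ‖F K 0 (nn k) - (F K 0 (nn k) - 1 / 2)‖ := by rw [← this]
      _ ≤ _ := norm_sub_le _ _
  rw [h7] at h9
  linarith

end

end Pool.Agent.U555.CG
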